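import Pool.Agent.Helper38.IA.St

/-!
# Project IA, module L2: diagonal dominance
-/

set_option autoImplicit false

namespace Pool.Agent.Helper32.IA38

open Finset Pool.Agent.Helper93.IA Pool.Agent.Helper38.IA

private theorem aux {V : Type} [Fintype V] (W : V → V → ℝ) (p : V → ℝ) (δ s : ℝ) (v0 : V)
    (hW : ∀ v y, 0 ≤ W v y ∧ W v y ≤ 1) (hW0 : ∀ v, W v v = 0)
    (hd : Fintype.card V + δ ≤ 2 * ∑ y, W v0 y + 2) (hp : ∑ v, p v = 0)
    (hs : |Lap W p v0| ≤ s) (hm : ∀ y, |p y| ≤ p v0) : δ * p v0 ≤ s := by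
  have hp0 : 0 ≤ p v0 := (abs_nonneg _).trans (hm v0)
  have h1 : Lap W p v0 = (∑ y, W v0 y) * p v0 - ∑ y, W v0 y * p y := by
    unfold Lap
    rw [sum_mul, ← sum_sub_distrib]
    exact sum_congr rfl fun y _ => by ring
  have h2 : 2 * p v0 ≤ ∑ y, (1 - W v0 y) * (p y + p v0) := by
    have h3 : (1 - W v0 v0) * (p v0 + p v0) ≤ ∑ y, (1 - W v0 y) * (p y + p v0) := by
      refine single_le_sum (f := fun y => (1 - W v0 y) * (p y + p v0)) (fun y _ => ?_)
        (mem_univ v0)
      have h4 := neg_le_of_abs_le (hm y)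
      exact mul_nonneg (by linarith [(hW v0 y).2]) (by linarith)
    rw [hW0] at h3
    linarith
  have h3 : ∑ y, (1 - W v0 y) * (p y + p v0) = ∑ y, p y - ∑ y, W v0 y * p y +
      Fintype.card V * p v0 - (∑ y, W v0 y) * p v0 := by
    have h4 : (Fintype.card V : ℝ) * p v0 = ∑ _y : V, p v0 := by
      rw [sum_const, card_univ, nsmul_eq_mul]
    rw [h4, sum_mul, ← sum_sub_distrib, ← sum_add_distrib, ← sum_sub_distrib]
    exact sum_congr rfl fun y _ => by ring
  have h5 := (le_abs_self (Lap W p v0)).trans hs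
  rw [h3, hp] at h2
  have h6 := mul_le_mul_of_nonneg_right hd hp0
  nlinarith

theorem hL2 : StL2 := by
  intro V _ W p δ s hW hW0 hδ hd hp hs v
  obtain ⟨v0, -, hv0⟩ := exists_max_image univ (fun v => |p v|) ⟨v, mem_univ v⟩
  have hle : δ * |p v| ≤ δ * |p v0| := mul_le_mul_of_nonneg_left (hv0 v (mem_univ v)) hδ.le
  refine hle.trans ?_
  rcases abs_cases (p v0) with ⟨h1, -⟩ | ⟨h1, -⟩
  · rw [h1]
    exact aux W p δ s v0 hW hW0 (hd v0) hp (hs v0) fun y => by
      rw [← h1]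
      exact hv0 y (mem_univ y)
  · rw [h1]
    refine aux W (fun v => -p v) δ s v0 hW hW0 (hd v0) ?_ ?_ fun y => ?_
    · rw [sum_neg_distrib, hp, neg_zero]
    · have h2 : Lap W (fun v => -p v) v0 = -Lap W p v0 := by
        unfold Lap
        rw [← sum_neg_distrib]
        exact sum_congr rfl fun y _ => by ring
      rw [h2, abs_neg]
      exact hs v0
    · rw [abs_neg, ← h1]
      exact hv0 y (mem_univ y)

end Pool.Agent.Helper32.IA38
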