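import Pool.Agent.Helper38.IA.StN

/-!
# Project IA, module NIT: iteration of the round
-/

set_option autoImplicit false

namespace Pool.Agent.Helper32.IA38

open Finset Pool.Agent.Helper93.IA Pool.Agent.Helper17.IAN Pool.Agent.Helper38.IA

private theorem pack_empty {α β γ : Type} [DecidableEq α] [DecidableEq β] [DecidableEq γ]
    (A : Finset (α × β)) (B : Finset (β × γ)) (C : Finset (γ × α)) : Pack A B C ∅ :=
  ⟨fun T hT => absurd hT (notMem_empty T), fun T hT => absurd hT (notMem_empty T),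
    fun T hT => absurd hT (notMem_empty T), fun T hT => absurd hT (notMem_empty T),
    fun T hT => absurd hT (notMem_empty T), fun T hT => absurd hT (notMem_empty T)⟩

private theorem pack_union {α β γ : Type} [DecidableEq α] [DecidableEq β] [DecidableEq γ]
    {A : Finset (α × β)} {B : Finset (β × γ)} {C : Finset (γ × α)} {P P' : Finset (α × β × γ)}
    (h : Pack A B C P)
    (h' : Pack (A \ P.image eA) (B \ P.image eB) (C \ P.image eC) P') :
    Pack A B C (P ∪ P') := by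
  refine ⟨fun T hT => ?_, fun T hT => ?_, fun T hT => ?_, fun T hT T' hT' he => ?_,
    fun T hT T' hT' he => ?_, fun T hT T' hT' he => ?_⟩
  · rcases mem_union.1 hT with h1 | h1
    · exact h.sA T h1
    · exact (mem_sdiff.1 (h'.sA T h1)).1
  · rcases mem_union.1 hT with h1 | h1
    · exact h.sB T h1
    · exact (mem_sdiff.1 (h'.sB T h1)).1
  · rcases mem_union.1 hT with h1 | h1
    · exact h.sC T h1
    · exact (mem_sdiff.1 (h'.sC T h1)).1
  · rcases mem_union.1 hT with h1 | h1 <;> rcases mem_union.1 hT' with h2 | h2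
    · exact h.iA T h1 T' h2 he
    · exact absurd (he ▸ mem_image_of_mem eA h1) (mem_sdiff.1 (h'.sA T' h2)).2
    · exact absurd (he.symm ▸ mem_image_of_mem eA h2) (mem_sdiff.1 (h'.sA T h1)).2
    · exact h'.iA T h1 T' h2 he
  · rcases mem_union.1 hT with h1 | h1 <;> rcases mem_union.1 hT' with h2 | h2
    · exact h.iB T h1 T' h2 he
    · exact absurd (he ▸ mem_image_of_mem eB h1) (mem_sdiff.1 (h'.sB T' h2)).2
    · exact absurd (he.symm ▸ mem_image_of_mem eB h2) (mem_sdiff.1 (h'.sB T h1)).2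
    · exact h'.iB T h1 T' h2 he
  · rcases mem_union.1 hT with h1 | h1 <;> rcases mem_union.1 hT' with h2 | h2
    · exact h.iC T h1 T' h2 he
    · exact absurd (he ▸ mem_image_of_mem eC h1) (mem_sdiff.1 (h'.sC T' h2)).2
    · exact absurd (he.symm ▸ mem_image_of_mem eC h2) (mem_sdiff.1 (h'.sC T h1)).2
    · exact h'.iC T h1 T' h2 he

private theorem sdiff_img {X Y : Type} [DecidableEq X] [DecidableEq Y] (A : Finset Y)
    (P P' : Finset X) (e : X → Y) : A \ (P ∪ P').image e = (A \ P.image e) \ P'.image e := by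
  rw [image_union]
  ext y
  rw [mem_sdiff, mem_sdiff, mem_sdiff, mem_union]
  tauto

private theorem bd (t : ℕ) (r D0 D1 D2 η n : ℝ) (hr : r ≤ 9 / 10) (hD0 : 0 ≤ D0) (he : 0 ≤ η * n)
    (h1 : D1 ≤ r * D0 + η * n) (h2 : D2 ≤ (9 / 10) ^ t * D1 + t * η * n) :
    D2 ≤ (9 / 10) ^ (t + 1) * D0 + ((t + 1 : ℕ) : ℝ) * η * n := by
  have hp : (0 : ℝ) < (9 / 10) ^ t := by positivity
  have hp1 : ((9 : ℝ) / 10) ^ t ≤ 1 := pow_le_one₀ (by norm_num) (by norm_num)
  have h3 : D1 ≤ 9 / 10 * D0 + η * n := by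
    have := mul_le_mul_of_nonneg_right hr hD0
    linarith
  have h4 := mul_le_mul_of_nonneg_left h3 hp.le
  have h5 := mul_le_mul_of_nonneg_right hp1 he
  push_cast
  rw [pow_succ]
  nlinarith

private theorem q_le : q ≤ 865 / 1000 := by
  unfold q
  have h1 : Real.exp (-2) = (Real.exp 1 ^ 2)⁻¹ := by
    rw [← Real.exp_nat_mul, ← Real.exp_neg]
    norm_num
  have h2 : Real.exp 1 ^ 2 ≤ 2.7182818286 ^ 2 :=
    pow_le_pow_left₀ (Real.exp_pos 1).le Real.exp_one_lt_d9.le 2
  have h3 : (2.7182818286 ^ 2 : ℝ)⁻¹ ≤ (Real.exp 1 ^ 2)⁻¹ :=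
    inv_anti₀ (by positivity) h2
  rw [h1]
  have h4 : (135 / 1000 : ℝ) ≤ (2.7182818286 ^ 2 : ℝ)⁻¹ := by norm_num
  linarith

theorem hNIT : StNRD → StNIT := by
  rintro ⟨K, hK, hNRD⟩
  refine ⟨K, hK, ?_⟩
  intro t
  induction t with
  | zero =>
    intro Λ η hΛ hη
    refine ⟨0, ?_⟩
    intro α β γ _ _ _ _ _ _ n δ x A B C _ _ _ _
    refine ⟨∅, pack_empty A B C, ?_, ?_, ?_, ?_, ?_, ?_⟩ <;>
    · intro v
      rw [image_empty, sdiff_empty]
      simp
  | succ t ih =>
    intro Λ η hΛ hη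
    obtain ⟨n1, h1⟩ := hNRD Λ η hΛ hη
    obtain ⟨n2, h2⟩ := ih (2 * Λ) η (by linarith) hη
    refine ⟨max n1 n2, ?_⟩
    intro α β γ _ _ _ _ _ _ n δ x A B C hn hδ hs hR
    have hn0 : (0 : ℝ) ≤ n := Nat.cast_nonneg n
    have hηn : 0 ≤ η * n := mul_nonneg hη.le hn0
    have hp1 : (1 : ℝ) ≤ (2 * K) ^ t := one_le_pow₀ (by linarith)
    have hs0 : 0 ≤ δ + η := by linarith
    have hKs : δ + η ≤ K * (δ + η) := le_mul_of_one_le_left hs0 hK
    have h2K : 2 * K * (δ + η) ≤ 3 / 100 := by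
      refine le_trans ?_ hs
      rw [pow_succ, mul_assoc ((2 * K) ^ t)]
      exact le_mul_of_one_le_left (by positivity) hp1
    have hδ2 : δ ≤ 1 / 2 := by linarith
    obtain ⟨P1, x', hP1, hR1, a1, a2, b1, b2, c1, c2⟩ :=
      h1 α β γ n δ x A B C ((le_max_left _ _).trans hn) hδ hδ2 hR
    obtain ⟨P2, hP2, a1', a2', b1', b2', c1', c2'⟩ :=
      h2 α β γ n (K * (δ + η)) x' (A \ P1.image eA) (B \ P1.image eB) (C \ P1.image eC)
        ((le_max_right _ _).trans hn) (by positivity) (by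
          refine le_trans ?_ hs
          rw [pow_succ, mul_assoc ((2 * K) ^ t)]
          refine mul_le_mul_of_nonneg_left ?_ (by positivity)
          linarith) hR1
    have hr : q + K * (δ + η) ≤ 9 / 10 := by
      have := q_le
      linarith
    refine ⟨P1 ∪ P2, pack_union hP1 hP2, ?_, ?_, ?_, ?_, ?_, ?_⟩
    · intro v
      rw [sdiff_img]
      exact bd t _ _ _ _ η n hr (Nat.cast_nonneg _) hηn (a1 v) (a1' v)
    · intro v
      rw [sdiff_img]
      exact bd t _ _ _ _ η n hr (Nat.cast_nonneg _) hηn (a2 v) (a2' v)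
    · intro v
      rw [sdiff_img]
      exact bd t _ _ _ _ η n hr (Nat.cast_nonneg _) hηn (b1 v) (b1' v)
    · intro v
      rw [sdiff_img]
      exact bd t _ _ _ _ η n hr (Nat.cast_nonneg _) hηn (b2 v) (b2' v)
    · intro v
      rw [sdiff_img]
      exact bd t _ _ _ _ η n hr (Nat.cast_nonneg _) hηn (c1 v) (c1' v)
    · intro v
      rw [sdiff_img]
      exact bd t _ _ _ _ η n hr (Nat.cast_nonneg _) hηn (c2 v) (c2' v)

end Pool.Agent.Helper32.IA38
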